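import Mathlib

namespace Pool.Agent.Results.MP_d0305a_co.Nine

open Set

/-- `T` is a triangle of the plane `ℂ` with side lengths `a`, `b`, `c`. -/
def IsTile (a b c : ℝ) (T : Set ℂ) : Prop :=
  ∃ p q r : ℂ, dist q r = a ∧ dist p r = b ∧ dist p q = c ∧ T = convexHull ℝ {p, q, r}

/-- `S` is the union of `N` triangles with sides `a`, `b`, `c` and pairwise disjoint interiors. -/
def TilesInto (a b c : ℝ) (N : ℕ) (S : Set ℂ) : Prop :=
  ∃ f : Fin N → Set ℂ, (∀ i, IsTile a b c (f i)) ∧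
    (∀ i j, i ≠ j → Disjoint (interior (f i)) (interior (f j))) ∧ ⋃ i, f i = S

def D (S T : Set ℂ) : Prop := Disjoint (interior S) (interior T)

lemma D.mono {S T S' T' : Set ℂ} (h : D S T) (h1 : S' ⊆ S) (h2 : T' ⊆ T) : D S' T' :=
  Disjoint.mono (interior_mono h1) (interior_mono h2) h

def TL (N : ℕ) (S : Set ℂ) : Prop :=
  ∃ L : List (Set ℂ), L.length = N ∧ (∀ T ∈ L, IsTile 69 91 139 T) ∧ L.Pairwise D ∧
    ∀ z, z ∈ S ↔ ∃ T ∈ L, z ∈ T

lemma TL.into {N : ℕ} {S : Set ℂ} (h : TL N S) : TilesInto 69 91 139 N S := by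
  obtain ⟨L, rfl, h1, h2, h3⟩ := h
  refine ⟨fun i => L[i], fun i => h1 _ (List.getElem_mem _), fun i j hij => ?_, ?_⟩
  · rw [List.pairwise_iff_getElem] at h2
    rcases lt_or_gt_of_ne hij with h | h
    · exact h2 i j i.2 j.2 h
    · exact (h2 j i j.2 i.2 h).symm
  · ext z
    rw [h3, mem_iUnion]
    constructor
    · rintro ⟨i, hi⟩; exact ⟨_, List.getElem_mem _, hi⟩
    · rintro ⟨T, hT, hz⟩
      obtain ⟨i, hi, rfl⟩ := List.getElem_of_mem hT
      exact ⟨⟨i, hi⟩, hz⟩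

lemma TL.cast {N M : ℕ} {S : Set ℂ} (h : TL N S) (e : N = M) : TL M S := e ▸ h

lemma TL.union3 {N1 N2 N3 : ℕ} {S1 S2 S3 : Set ℂ} (h1 : TL N1 S1) (h2 : TL N2 S2) (h3 : TL N3 S3)
    (d12 : D S1 S2) (d13 : D S1 S3) (d23 : D S2 S3) : TL (N1 + N2 + N3) (S1 ∪ S2 ∪ S3) := by
  obtain ⟨L1, rfl, a1, b1, c1⟩ := h1
  obtain ⟨L2, rfl, a2, b2, c2⟩ := h2
  obtain ⟨L3, rfl, a3, b3, c3⟩ := h3
  have s1 : ∀ T ∈ L1, T ⊆ S1 := fun T hT z hz => (c1 z).2 ⟨T, hT, hz⟩
  have s2 : ∀ T ∈ L2, T ⊆ S2 := fun T hT z hz => (c2 z).2 ⟨T, hT, hz⟩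
  have s3 : ∀ T ∈ L3, T ⊆ S3 := fun T hT z hz => (c3 z).2 ⟨T, hT, hz⟩
  refine ⟨L1 ++ L2 ++ L3, by simp [add_assoc], ?_, ?_, ?_⟩
  · intro T hT
    simp only [List.mem_append] at hT
    rcases hT with (h | h) | h
    exacts [a1 T h, a2 T h, a3 T h]
  · rw [List.pairwise_append, List.pairwise_append]
    refine ⟨⟨b1, b2, fun x hx y hy => d12.mono (s1 x hx) (s2 y hy)⟩, b3, fun x hx y hy => ?_⟩
    rcases List.mem_append.1 hx with h | h
    · exact d13.mono (s1 x h) (s3 y hy)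
    · exact d23.mono (s2 x h) (s3 y hy)
  · intro z
    simp only [mem_union, c1, c2, c3, List.mem_append, or_and_right, exists_or]

lemma TL.union {N1 N2 : ℕ} {S1 S2 : Set ℂ} (h1 : TL N1 S1) (h2 : TL N2 S2) (d : D S1 S2) :
    TL (N1 + N2) (S1 ∪ S2) := by
  have h0 : TL 0 ∅ := ⟨[], rfl, by simp, List.Pairwise.nil, by simp⟩
  simpa using h1.union3 h2 h0 d (by simp [D]) (by simp [D])

def Reg (o x y : ℂ) (P : ℝ → ℝ → Prop) : Set ℂ := {z | ∃ s t, P s t ∧ z = o + s • x + t • y}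

def det (x y : ℂ) : ℝ := x.re * y.im - x.im * y.re

lemma sep {o x y : ℂ} (hd : det x y ≠ 0) {P Q : ℝ → ℝ → Prop} (α β γ : ℝ)
    (h0 : α ≠ 0 ∨ β ≠ 0) (hP : ∀ s t, P s t → α * s + β * t ≤ γ)
    (hQ : ∀ s t, Q s t → γ ≤ α * s + β * t) : D (Reg o x y P) (Reg o x y Q) := by
  rw [D, Set.disjoint_left]
  intro z h1 h2
  have hc : ContinuousAt (fun e : ℝ => z + e • (α • x + β • y)) 0 := by fun_prop
  have e1 : ∀ᶠ e in nhds (0 : ℝ), z + e • (α • x + β • y) ∈ Reg o x y P := by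
    apply hc.eventually_mem
    simpa using mem_interior_iff_mem_nhds.1 h1
  obtain ⟨e, ⟨s, t, hst, he⟩, e2⟩ := ((e1.filter_mono nhdsWithin_le_nhds).and
    (self_mem_nhdsWithin (s := Set.Ioi (0 : ℝ)))).exists
  obtain ⟨s', t', hst', rfl⟩ := interior_subset h2
  have r1 := congrArg Complex.re he
  have r2 := congrArg Complex.im he
  simp only [Complex.add_re, Complex.add_im, Complex.smul_re, Complex.smul_im, smul_eq_mul] at r1 r2
  have u1 : (s' + e * α - s) * det x y = 0 := by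
    unfold det; linear_combination y.im * r1 - y.re * r2
  have u2 : (t' + e * β - t) * det x y = 0 := by
    unfold det; linear_combination x.re * r2 - x.im * r1
  have v1 := (mul_eq_zero.1 u1).resolve_right hd
  have v2 := (mul_eq_zero.1 u2).resolve_right hd
  have a1 := hP s t hst
  have a2 := hQ s' t' hst'
  have hp : 0 < α ^ 2 + β ^ 2 := by rcases h0 with h | h <;> positivity
  have := mul_pos (show 0 < e from e2) hp
  rw [show s = s' + e * α by linarith, show t = t' + e * β by linarith] at a1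
  nlinarith

lemma cut {o x y : ℂ} (hd : det x y ≠ 0) {P Q R : ℝ → ℝ → Prop} {M N : ℕ} (α β γ : ℝ)
    (h0 : α ≠ 0 ∨ β ≠ 0) (h1 : TL M (Reg o x y fun s t => R s t ∧ α * s + β * t ≤ γ))
    (h2 : TL N (Reg o x y fun s t => R s t ∧ γ ≤ α * s + β * t)) : TL (M + N) (Reg o x y R) := by
  have := h1.union h2 (sep hd α β γ h0 (fun _ _ h => h.2) (fun _ _ h => h.2))
  refine (congrArg (TL _) ?_).mp this
  ext z
  constructor
  · rintro (⟨s, t, h, e⟩ | ⟨s, t, h, e⟩) <;> exact ⟨s, t, h.1, e⟩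
  · rintro ⟨s, t, h, e⟩
    rcases le_total (α * s + β * t) γ with h' | h'
    · exact Or.inl ⟨s, t, ⟨h, h'⟩, e⟩
    · exact Or.inr ⟨s, t, ⟨h, h'⟩, e⟩

/-- change of frame -/
lemma move {o x y : ℂ} {P Q : ℝ → ℝ → Prop} {N : ℕ} (s0 t0 p q r w p' q' r' w' : ℝ)
    (i1 : p * p' + r * q' = 1) (i2 : p * r' + r * w' = 0) (i3 : q * p' + w * q' = 0)
    (i4 : q * r' + w * w' = 1)
    (h1 : ∀ s t, P s t → Q (s0 + p * s + r * t) (t0 + q * s + w * t))
    (h2 : ∀ s t, Q s t → P (p' * (s - s0) + r' * (t - t0)) (q' * (s - s0) + w' * (t - t0)))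
    (h : TL N (Reg (o + s0 • x + t0 • y) (p • x + q • y) (r • x + w • y) P)) :
    TL N (Reg o x y Q) := by
  refine (congrArg (TL _) ?_).mp h
  ext z
  constructor
  · rintro ⟨s, t, hp, rfl⟩
    exact ⟨_, _, h1 s t hp, by module⟩
  · rintro ⟨s, t, hq, rfl⟩
    refine ⟨_, _, h2 s t hq, ?_⟩
    have e1 : s = s0 + p * (p' * (s - s0) + r' * (t - t0)) + r * (q' * (s - s0) + w' * (t - t0)) := by
      linear_combination (s0 - s) * i1 + (t0 - t) * i2
    have e2 : t = t0 + q * (p' * (s - s0) + r' * (t - t0)) + w * (q' * (s - s0) + w' * (t - t0)) := by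
      linear_combination (s0 - s) * i3 + (t0 - t) * i4
    generalize p' * (s - s0) + r' * (t - t0) = u at e1 e2 ⊢
    generalize q' * (s - s0) + w' * (t - t0) = v at e1 e2 ⊢
    subst e1 e2
    module

lemma hull_eq (o x y : ℂ) :
    convexHull ℝ {o + y, o + x, o} = Reg o x y fun s t => 0 ≤ s ∧ 0 ≤ t ∧ s + t ≤ 1 := by
  apply Subset.antisymm
  · apply convexHull_min
    · rintro _ (rfl | rfl | rfl)
      · exact ⟨0, 1, by norm_num, by simp⟩
      · exact ⟨1, 0, by norm_num, by simp⟩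
      · exact ⟨0, 0, by norm_num, by simp⟩
    · rintro _ ⟨s, t, ⟨h1, h2, h3⟩, rfl⟩ _ ⟨s', t', ⟨h1', h2', h3'⟩, rfl⟩ u v hu hv huv
      refine ⟨u * s + v * s', u * t + v * t', ⟨by positivity, by positivity, by nlinarith⟩, ?_⟩
      rw [show v = 1 - u by linarith]
      module
  · rintro _ ⟨s, t, ⟨h1, h2, h3⟩, rfl⟩
    have := (convex_convexHull ℝ ({o + y, o + x, o} : Set ℂ)).sum_mem (t := Finset.univ)
      (w := ![t, s, 1 - s - t]) (z := ![o + y, o + x, o])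
      (fun i _ => by fin_cases i <;> simp <;> linarith) (by simp [Fin.sum_univ_three]; ring)
      (fun i _ => subset_convexHull _ _ (by fin_cases i <;> simp))
    refine (congrArg (· ∈ _) ?_).mp this
    simp only [Fin.sum_univ_three, Matrix.cons_val_zero, Matrix.cons_val_one, Matrix.cons_val]
    module

def G (x y : ℂ) : Prop := ‖x‖ = 69 ∧ ‖y‖ = 91 ∧ ‖x - y‖ = 139

lemma G.det {x y : ℂ} (h : G x y) : det x y ≠ 0 := by
  obtain ⟨h1, h2, h3⟩ := h
  have e1 : x.re ^ 2 + x.im ^ 2 = 69 ^ 2 := by rw [← h1, Complex.sq_norm, Complex.normSq_apply]; ring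
  have e2 : y.re ^ 2 + y.im ^ 2 = 91 ^ 2 := by rw [← h2, Complex.sq_norm, Complex.normSq_apply]; ring
  have e3 : (x.re - y.re) ^ 2 + (x.im - y.im) ^ 2 = 139 ^ 2 := by
    rw [← h3, Complex.sq_norm, Complex.normSq_apply]; simp; ring
  intro h0
  unfold Nine.det at h0
  have e4 : x.re * y.re + x.im * y.im = -6279 / 2 := by linarith
  have : (x.re ^ 2 + x.im ^ 2) * (y.re ^ 2 + y.im ^ 2) =
      (x.re * y.re + x.im * y.im) ^ 2 + (x.re * y.im - x.im * y.re) ^ 2 := by ring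
  rw [e1, e2, e4, h0] at this
  norm_num at this

lemma G.same {x y : ℂ} (h : G x y) : G ((1 : ℝ) • x + (0 : ℝ) • y) ((0 : ℝ) • x + (1 : ℝ) • y) := by
  simpa using h

lemma G.neg {x y : ℂ} (h : G x y) :
    G ((-1 : ℝ) • x + (0 : ℝ) • y) ((0 : ℝ) • x + (-1 : ℝ) • y) := by
  refine ⟨by simpa using h.1, by simpa using h.2.1, ?_⟩
  rw [← h.2.2, ← norm_neg]; congr 1; module

lemma tri1 {x y : ℂ} (h : G x y) (o : ℂ) :
    TL 1 (Reg o x y fun s t => 0 ≤ s ∧ 0 ≤ t ∧ s + t ≤ 1) := by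
  refine ⟨[Reg o x y fun s t => 0 ≤ s ∧ 0 ≤ t ∧ s + t ≤ 1], rfl, ?_, List.pairwise_singleton _ _,
    fun z => ?_⟩
  rotate_left
  · simp only [List.mem_singleton, exists_eq_left]
  · intro T hT
    rw [List.mem_singleton.1 hT, ← hull_eq]
    refine ⟨_, _, _, by simp [h.1], by simp [h.2.1], ?_, rfl⟩
    rw [dist_comm, dist_eq_norm, ← h.2.2]; congr 1; ring

lemma par1 {x y : ℂ} (h : G x y) (o : ℂ) :
    TL 2 (Reg o x y fun s t => 0 ≤ s ∧ s ≤ 1 ∧ 0 ≤ t ∧ t ≤ 1) := by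
  refine cut (P := fun _ _ => True) (Q := fun _ _ => True) (M := 1) (N := 1) h.det 1 1 1
    (Or.inl one_ne_zero) ?_ ?_
  · refine move 0 0 1 0 0 1 1 0 0 1 (by norm_num) (by norm_num) (by norm_num) (by norm_num) ?_ ?_
      (tri1 h.same _) <;> intro s t hh <;> (casesm* _ ∧ _; constructorm* _ ∧ _ <;> linarith)
  · refine move 1 1 (-1) 0 0 (-1) (-1) 0 0 (-1) (by norm_num) (by norm_num) (by norm_num)
      (by norm_num) ?_ ?_ (tri1 h.neg _) <;> intro s t hh <;> (casesm* _ ∧ _; constructorm* _ ∧ _ <;> linarith)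

lemma row {x y : ℂ} (h : G x y) (m : ℕ) : ∀ o : ℂ,
    TL (2 * (m + 1)) (Reg o x y fun s t => 0 ≤ s ∧ s ≤ (m : ℝ) + 1 ∧ 0 ≤ t ∧ t ≤ 1) := by
  induction m with
  | zero => intro o; simpa using par1 h o
  | succ m ih =>
    intro o
    have hm : (0 : ℝ) ≤ m := Nat.cast_nonneg m
    push_cast
    refine cut (P := fun _ _ => True) (Q := fun _ _ => True) (M := 2) (N := 2 * (m + 1)) h.det
      1 0 1 (Or.inl one_ne_zero) ?_ ?_ |> (congrArg (TL · _) (by ring)).mp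
    · refine move 0 0 1 0 0 1 1 0 0 1 (by norm_num) (by norm_num) (by norm_num) (by norm_num) ?_ ?_
        (par1 h.same _) <;> intro s t hh <;> (casesm* _ ∧ _; constructorm* _ ∧ _ <;> linarith)
    · have := ih (o + (1 : ℝ) • x + (0 : ℝ) • y)
      refine move 1 0 1 0 0 1 1 0 0 1 (by norm_num) (by norm_num) (by norm_num) (by norm_num) ?_ ?_
        (by simpa using this) <;> intro s t hh <;> (casesm* _ ∧ _; constructorm* _ ∧ _ <;> linarith)

lemma grid {x y : ℂ} (h : G x y) (m n : ℕ) : ∀ o : ℂ, TL (2 * (m + 1) * (n + 1))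
    (Reg o x y fun s t => 0 ≤ s ∧ s ≤ (m : ℝ) + 1 ∧ 0 ≤ t ∧ t ≤ (n : ℝ) + 1) := by
  induction n with
  | zero => intro o; simpa using row h m o
  | succ n ih =>
    intro o
    have hn : (0 : ℝ) ≤ n := Nat.cast_nonneg n
    push_cast
    refine cut (P := fun _ _ => True) (Q := fun _ _ => True) (M := 2 * (m + 1))
      (N := 2 * (m + 1) * (n + 1)) h.det 0 1 1 (Or.inr one_ne_zero) ?_ ?_ |>
      (congrArg (TL · _) (by ring)).mp
    · refine move 0 0 1 0 0 1 1 0 0 1 (by norm_num) (by norm_num) (by norm_num) (by norm_num) ?_ ?_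
        (row h.same m _) <;> intro s t hh <;> (casesm* _ ∧ _; constructorm* _ ∧ _ <;> linarith)
    · have := ih (o + (0 : ℝ) • x + (1 : ℝ) • y)
      refine move 0 1 1 0 0 1 1 0 0 1 (by norm_num) (by norm_num) (by norm_num) (by norm_num) ?_ ?_
        (by simpa using this) <;> intro s t hh <;> (casesm* _ ∧ _; constructorm* _ ∧ _ <;> linarith)

lemma tri {x y : ℂ} (h : G x y) (k : ℕ) : ∀ o : ℂ, TL ((k + 1) ^ 2)
    (Reg o x y fun s t => 0 ≤ s ∧ 0 ≤ t ∧ s + t ≤ (k : ℝ) + 1) := by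
  induction k with
  | zero => intro o; simpa using tri1 h o
  | succ k ih =>
    intro o
    have hk : (0 : ℝ) ≤ k := Nat.cast_nonneg k
    push_cast
    refine cut (P := fun _ _ => True) (Q := fun _ _ => True) (M := 2 * (k + 1) + 1)
      (N := (k + 1) ^ 2) h.det 0 1 1 (Or.inr one_ne_zero) ?_ ?_ |>
      (congrArg (TL · _) (by ring)).mp
    · refine cut (P := fun _ _ => True) (Q := fun _ _ => True) h.det 1 0 (k + 1)
        (Or.inl one_ne_zero) ?_ ?_
      · refine move 0 0 1 0 0 1 1 0 0 1 (by norm_num) (by norm_num) (by norm_num) (by norm_num)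
          ?_ ?_ (row h.same k _) <;> intro s t hh <;> (casesm* _ ∧ _; constructorm* _ ∧ _ <;> linarith)
      · refine move (k + 1) 0 1 0 0 1 1 0 0 1 (by norm_num) (by norm_num) (by norm_num)
          (by norm_num) ?_ ?_ (tri1 h.same _) <;> intro s t hh <;> (casesm* _ ∧ _; constructorm* _ ∧ _ <;> linarith)
    · have := ih (o + (0 : ℝ) • x + (1 : ℝ) • y)
      refine move 0 1 1 0 0 1 1 0 0 1 (by norm_num) (by norm_num) (by norm_num) (by norm_num) ?_ ?_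
        (by simpa using this) <;> intro s t hh <;> (casesm* _ ∧ _; constructorm* _ ∧ _ <;> linarith)

def H (x y : ℂ) : Prop := ∀ p q : ℝ, ‖p • x + q • y‖ ^ 2 = p ^ 2 + p * q + q ^ 2

lemma H.norm {x y : ℂ} (h : H x y) (p q l : ℝ) (hl : 0 ≤ l) (e : p ^ 2 + p * q + q ^ 2 = l ^ 2) :
    ‖p • x + q • y‖ = l := by
  rw [← h] at e
  exact (pow_left_inj₀ (norm_nonneg _) hl two_ne_zero).1 e

lemma H.g {x y : ℂ} (h : H x y) (p q r w : ℝ) (e1 : p ^ 2 + p * q + q ^ 2 = 69 ^ 2)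
    (e2 : r ^ 2 + r * w + w ^ 2 = 91 ^ 2)
    (e3 : (p - r) ^ 2 + (p - r) * (q - w) + (q - w) ^ 2 = 139 ^ 2) :
    G (p • x + q • y) (r • x + w • y) := by
  refine ⟨h.norm _ _ _ (by norm_num) e1, h.norm _ _ _ (by norm_num) e2, ?_⟩
  rw [← h.norm _ _ _ (by norm_num) e3]; congr 1; module

lemma H.det {x y : ℂ} (h : H x y) : det x y ≠ 0 := by
  intro h0
  apply (h.g 69 0 0 (-91) (by norm_num) (by norm_num) (by norm_num)).det
  unfold Nine.det at h0 ⊢
  simp only [Complex.add_re, Complex.add_im, Complex.smul_re, Complex.smul_im, smul_eq_mul]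
  linear_combination (-6279) * h0

lemma H.same {x y : ℂ} (h : H x y) : H ((1 : ℝ) • x + (0 : ℝ) • y) ((0 : ℝ) • x + (1 : ℝ) • y) := by
  simpa using h

lemma basic {x y : ℂ} (h : H x y) (o : ℂ) : TL (91 ^ 2 + (139 ^ 2 + 69 ^ 2))
    (Reg o x y fun s t => 0 ≤ t ∧ t ≤ 6279 ∧ 0 ≤ s ∧ s + t ≤ 19321) := by
  refine cut (P := fun _ _ => True) (Q := fun _ _ => True) h.det 69 (-91) 0
    (Or.inl (by norm_num)) ?_ (cut (P := fun _ _ => True) (Q := fun _ _ => True) h.det 91 160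
      1758211 (Or.inl (by norm_num)) ?_ ?_)
  · refine move 0 6279 0 (-69) 91 0 0 (1 / 91) (-1 / 69) 0 (by norm_num) (by norm_num)
      (by norm_num) (by norm_num) ?_ ?_
      (tri (h.g _ _ _ _ (by norm_num) (by norm_num) (by norm_num)) 90 _) <;>
      intro s t hh <;> push_cast at hh ⊢ <;> (casesm* _ ∧ _; constructorm* _ ∧ _ <;> linarith)
  · refine move 8281 6279 (11040 / 139) (-6279 / 139) (-8281 / 139) (-6279 / 139)
      (1 / 139) (-1 / 139) (-91 / 9591) (-160 / 12649) (by norm_num) (by norm_num)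
      (by norm_num) (by norm_num) ?_ ?_
      (tri (h.g _ _ _ _ (by norm_num) (by norm_num) (by norm_num)) 138 _) <;>
      intro s t hh <;> push_cast at hh ⊢ <;> (casesm* _ ∧ _; constructorm* _ ∧ _ <;> linarith)
  · refine move 13042 6279 (-69) 0 91 (-91) (-1 / 69) 0 (-1 / 69) (-1 / 91) (by norm_num)
      (by norm_num) (by norm_num) (by norm_num) ?_ ?_
      (tri (h.g _ _ _ _ (by norm_num) (by norm_num) (by norm_num)) 68 _) <;>
      intro s t hh <;> push_cast at hh ⊢ <;> (casesm* _ ∧ _; constructorm* _ ∧ _ <;> linarith)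

lemma layer {x y : ℂ} (h : H x y) (o : ℂ) (i : ℕ) :
    TL (2 * (i + 1) * 69 + (2 * 91 * 47 + (91 ^ 2 + (139 ^ 2 + 69 ^ 2))))
    (Reg o x y fun s t => 0 ≤ t ∧ t ≤ 6279 ∧ 0 ≤ s ∧ s + t ≤ 69 * ((i : ℝ) + 1) + 23598) := by
  have hi : (0 : ℝ) ≤ i := Nat.cast_nonneg i
  refine cut (P := fun _ _ => True) (Q := fun _ _ => True) h.det 1 0 (69 * ((i : ℝ) + 1))
    (Or.inl (by norm_num)) ?_ (cut (P := fun _ _ => True) (Q := fun _ _ => True) h.det 1 0
      (69 * ((i : ℝ) + 1) + 4277) (Or.inl (by norm_num)) ?_ ?_)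
  · refine move 0 6279 69 0 0 (-91) (1 / 69) 0 0 (-1 / 91) (by norm_num) (by norm_num)
      (by norm_num) (by norm_num) ?_ ?_
      (grid (h.g _ _ _ _ (by norm_num) (by norm_num) (by norm_num)) i 68 _) <;>
      intro s t hh <;> push_cast at hh ⊢ <;> (casesm* _ ∧ _; constructorm* _ ∧ _ <;> linarith)
  · refine move (69 * ((i : ℝ) + 1)) 6279 0 (-69) 91 0 0 (1 / 91) (-1 / 69) 0 (by norm_num)
      (by norm_num) (by norm_num) (by norm_num) ?_ ?_
      (grid (h.g _ _ _ _ (by norm_num) (by norm_num) (by norm_num)) 90 46 _) <;>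
      intro s t hh <;> push_cast at hh ⊢ <;> (casesm* _ ∧ _; constructorm* _ ∧ _ <;> linarith)
  · refine move (69 * ((i : ℝ) + 1) + 4277) 0 1 0 0 1 1 0 0 1 (by norm_num)
      (by norm_num) (by norm_num) (by norm_num) ?_ ?_ (basic h.same _) <;>
      intro s t hh <;> (casesm* _ ∧ _; constructorm* _ ∧ _ <;> linarith)

lemma trap {x y : ℂ} (h : H x y) (o : ℂ) : TL 169533
    (Reg o x y fun s t => 0 ≤ t ∧ t ≤ 18837 ∧ 0 ≤ s ∧ s + t ≤ 37674) := by
  refine TL.cast (cut (P := fun _ _ => True) (Q := fun _ _ => True) (M := 69069)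
    (N := 56511 + 43953) h.det 0 1 6279 (Or.inr (by norm_num)) ?_
    (cut (P := fun _ _ => True) (Q := fun _ _ => True) (M := 56511) (N := 43953)
      h.det 0 1 12558 (Or.inr (by norm_num)) ?_ ?_)) (by norm_num)
  · refine move 0 0 1 0 0 1 1 0 0 1 (by norm_num) (by norm_num) (by norm_num) (by norm_num) ?_ ?_
      ((layer h.same _ 203).cast (by norm_num)) <;> intro s t hh <;> push_cast at hh ⊢ <;> (casesm* _ ∧ _; constructorm* _ ∧ _ <;> linarith)
  · refine move 0 6279 1 0 0 1 1 0 0 1 (by norm_num) (by norm_num) (by norm_num) (by norm_num)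
      ?_ ?_ ((layer h.same _ 112).cast (by norm_num)) <;> intro s t hh <;> push_cast at hh ⊢ <;> (casesm* _ ∧ _; constructorm* _ ∧ _ <;> linarith)
  · refine move 0 12558 1 0 0 1 1 0 0 1 (by norm_num) (by norm_num) (by norm_num) (by norm_num)
      ?_ ?_ ((layer h.same _ 21).cast (by norm_num)) <;> intro s t hh <;> push_cast at hh ⊢ <;> (casesm* _ ∧ _; constructorm* _ ∧ _ <;> linarith)

lemma H.rot {x y : ℂ} (h : H x y) (p q r w : ℝ) (e1 : p ^ 2 + p * q + q ^ 2 = 1)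
    (e2 : r ^ 2 + r * w + w ^ 2 = 1) (e3 : 2 * p * r + p * w + q * r + 2 * q * w = 1) :
    H (p • x + q • y) (r • x + w • y) := by
  intro u v
  rw [show u • (p • x + q • y) + v • (r • x + w • y) = (u * p + v * r) • x + (u * q + v * w) • y by
    module, h]
  linear_combination u ^ 2 * e1 + v ^ 2 * e2 + u * v * e3

lemma big {x y : ℂ} (h : H x y) : TL 508599
    (Reg 0 x y fun s t => 0 ≤ s ∧ 0 ≤ t ∧ s + t ≤ 56511) := by
  have t1 : TL 169533 (Reg 0 x y fun s t => 0 ≤ t ∧ t ≤ 18837 ∧ 18837 ≤ s ∧ s + t ≤ 56511) := by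
    refine move 18837 0 1 0 0 1 1 0 0 1 (by norm_num) (by norm_num) (by norm_num) (by norm_num)
      ?_ ?_ (trap h.same _) <;> intro s t hh <;> (casesm* _ ∧ _; constructorm* _ ∧ _ <;> linarith)
  have t2 : TL 169533 (Reg 0 x y fun s t => 0 ≤ s ∧ 18837 ≤ t ∧ 37674 ≤ s + t ∧ s + t ≤ 56511) := by
    refine move 37674 18837 (-1) 1 (-1) 0 0 (-1) 1 (-1) (by norm_num) (by norm_num) (by norm_num)
      (by norm_num) ?_ ?_ (trap (h.rot _ _ _ _ (by norm_num) (by norm_num) (by norm_num)) _) <;>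
      intro s t hh <;> (casesm* _ ∧ _; constructorm* _ ∧ _ <;> linarith)
  have t3 : TL 169533 (Reg 0 x y fun s t => 0 ≤ s ∧ s ≤ 18837 ∧ 0 ≤ t ∧ s + t ≤ 37674) := by
    refine move 0 37674 0 (-1) 1 (-1) (-1) 1 (-1) 0 (by norm_num) (by norm_num) (by norm_num)
      (by norm_num) ?_ ?_ (trap (h.rot _ _ _ _ (by norm_num) (by norm_num) (by norm_num)) _) <;>
      intro s t hh <;> (casesm* _ ∧ _; constructorm* _ ∧ _ <;> linarith)
  have := t1.union3 t2 t3
    (sep h.det 0 1 18837 (Or.inr one_ne_zero) (fun s t hh => by linarith [hh.2.1])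
      (fun s t hh => by linarith [hh.2.1]))
    (sep h.det (-1) 0 (-18837) (Or.inl (by norm_num)) (fun s t hh => by linarith [hh.2.2.1])
      (fun s t hh => by linarith [hh.2.1]))
    (sep h.det (-1) (-1) (-37674) (Or.inl (by norm_num)) (fun s t hh => by linarith [hh.2.2.1])
      (fun s t hh => by linarith [hh.2.2.2]))
  refine (congrArg (TL _) ?_).mp (this.cast (by norm_num))
  ext z
  constructor
  · rintro ((⟨s, t, hh, e⟩ | ⟨s, t, hh, e⟩) | ⟨s, t, hh, e⟩) <;> refine ⟨s, t, ?_, e⟩ <;> (casesm* _ ∧ _; constructorm* _ ∧ _ <;> linarith)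
  · rintro ⟨s, t, ⟨h1, h2, h3⟩, e⟩
    by_cases c1 : t ≤ 18837 ∧ 18837 ≤ s
    · exact Or.inl (Or.inl ⟨s, t, ⟨h2, c1.1, c1.2, h3⟩, e⟩)
    by_cases c2 : 18837 ≤ t ∧ 37674 ≤ s + t
    · exact Or.inl (Or.inr ⟨s, t, ⟨h1, c2.1, c2.2, h3⟩, e⟩)
    refine Or.inr ⟨s, t, ⟨h1, ?_, h2, ?_⟩, e⟩ <;> by_contra hc <;>
      rcases not_and_or.1 c1 with c | c <;> rcases not_and_or.1 c2 with d | d <;>
      push Not at hc c d <;> linarith

theorem result : ∃ a b c : ℕ, 0 < a ∧ 0 < b ∧ 0 < c ∧ Nat.Coprime a b ∧ Nat.Coprime a c ∧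
    Nat.Coprime b c ∧ c ^ 2 = a ^ 2 + b ^ 2 + a * b ∧ a ≠ b ∧
    (¬ ∃ r : ℚ, Real.arccos (((b : ℝ) ^ 2 + c ^ 2 - a ^ 2) / (2 * b * c)) = r * Real.pi) ∧
    ∃ (N : ℕ) (A B C : ℂ) (X : ℝ), 0 < X ∧ dist A B = X ∧ dist B C = X ∧ dist A C = X ∧
      TilesInto a b c N (convexHull ℝ {A, B, C}) ∧
      ∀ m : ℤ, 3 * ⌈((c : ℚ) ^ 2 - a - b) / (a * b)⌉ ≤ m → (N : ℤ) ≠ m ^ 2 * (a * b) := by
  let w : ℂ := ⟨1 / 2, Real.sqrt 3 / 2⟩
  have hH : H 1 w := by
    intro p q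
    rw [Complex.sq_norm, Complex.normSq_apply]
    simp [w]
    linear_combination (q ^ 2 / 4) * Real.mul_self_sqrt (show (0 : ℝ) ≤ 3 by norm_num)
  refine ⟨69, 91, 139, by norm_num, by norm_num, by norm_num, by norm_num, by norm_num,
    by norm_num, by norm_num, by norm_num, fun hr => ?_, 508599,
    0 + ((0 : ℝ) • 1 + (56511 : ℝ) • w), 0 + ((56511 : ℝ) • 1 + (0 : ℝ) • w), 0, 56511,
    by norm_num, ?_, ?_, ?_, ?_, ?_⟩
  · have hc : Real.cos (Real.arccos ((((91 : ℕ) : ℝ) ^ 2 + (139 : ℕ) ^ 2 - (69 : ℕ) ^ 2) /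
        (2 * (91 : ℕ) * (139 : ℕ)))) = ((251 / 278 : ℚ) : ℝ) := by
      rw [Real.cos_arccos] <;> norm_num
    have := niven hr ⟨_, hc⟩
    rw [hc] at this
    norm_num at this
  · rw [dist_eq_norm]
    exact (congrArg norm (by module)).trans (hH.norm (-56511) 56511 56511 (by norm_num) (by norm_num))
  · rw [dist_eq_norm]
    exact (congrArg norm (by module)).trans (hH.norm 56511 0 56511 (by norm_num) (by norm_num))
  · rw [dist_eq_norm]
    exact (congrArg norm (by module)).trans (hH.norm 0 56511 56511 (by norm_num) (by norm_num))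
  · rw [hull_eq]
    push_cast
    apply TL.into
    have h := big hH
    have e : Reg 0 1 w (fun s t => 0 ≤ s ∧ 0 ≤ t ∧ s + t ≤ 56511) =
        Reg 0 ((56511 : ℝ) • 1 + (0 : ℝ) • w) ((0 : ℝ) • 1 + (56511 : ℝ) • w)
          fun s t => 0 ≤ s ∧ 0 ≤ t ∧ s + t ≤ 1 := by
      ext z
      constructor
      · rintro ⟨s, t, hh, rfl⟩
        refine ⟨s / 56511, t / 56511, ?_, by module⟩
        (casesm* _ ∧ _; constructorm* _ ∧ _ <;> linarith)
      · rintro ⟨s, t, hh, rfl⟩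
        refine ⟨56511 * s, 56511 * t, ?_, by module⟩
        (casesm* _ ∧ _; constructorm* _ ∧ _ <;> linarith)
    rwa [e] at h
  · intro m hm
    have : ⌈(((139 : ℕ) : ℚ) ^ 2 - (69 : ℕ) - (91 : ℕ)) / ((69 : ℕ) * (91 : ℕ))⌉ = 4 := by
      rw [Int.ceil_eq_iff]; norm_num
    rw [this] at hm
    push_cast
    nlinarith

end Pool.Agent.Results.MP_d0305a_co.Nine
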